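import Pool.Agent.W394.BQN.Stm

/-!
# The node data pass to the localisation
-/

set_option autoImplicit false

open Polynomial

noncomputable section

namespace Pool.Agent.W212.BQN

open Pool.Agent.W394.BQN BQ

/-- common denominators for polynomials over `VV W` -/
theorem denom (W : Type) [CommRing W] [IsDomain W] (l : ℕ) (p : MvPolynomial (Fin l) (VV W)) :
    ∃ s ∈ S2 W, ∃ q : MvPolynomial (Fin l) W[X],
      MvPolynomial.C (algebraMap W[X] (VV W) s) * p =
        MvPolynomial.map (algebraMap W[X] (VV W)) q := by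
  induction p using MvPolynomial.induction_on with
  | C a =>
    obtain ⟨⟨c, f⟩, h⟩ := IsLocalization.surj (S2 W) a
    refine ⟨f, f.2, MvPolynomial.C c, ?_⟩
    rw [← MvPolynomial.C_mul, MvPolynomial.map_C, mul_comm]
    exact congrArg MvPolynomial.C h
  | add p q hp hq =>
    obtain ⟨f, hf, c, hc⟩ := hp
    obtain ⟨g, hg, d, hd⟩ := hq
    refine ⟨f * g, (S2 W).mul_mem hf hg, MvPolynomial.C g * c + MvPolynomial.C f * d, ?_⟩
    rw [map_add (MvPolynomial.map (algebraMap W[X] (VV W))),
      map_mul (MvPolynomial.map (algebraMap W[X] (VV W))),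
      map_mul (MvPolynomial.map (algebraMap W[X] (VV W))), MvPolynomial.map_C,
      MvPolynomial.map_C, ← hc, ← hd, map_mul (algebraMap W[X] (VV W)), MvPolynomial.C_mul]
    ring
  | mul_X p i hp =>
    obtain ⟨f, hf, c, hc⟩ := hp
    refine ⟨f, hf, c * MvPolynomial.X i, ?_⟩
    rw [map_mul, MvPolynomial.map_X, ← hc, mul_assoc]

theorem t_ND (h1 : S_VV) (h2 : S_INT) (h3 : S_QV) (h4 : S_LR) : S_ND := by
  intro V C Ω _ _ _ _ _ _ _ j ι j' hL hj' u hu
  obtain ⟨hu0, W, instW, domW, pidW, i, l, r, hE, hfin, hsurj, hker, hr⟩ := hu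
  obtain ⟨i', hi'fin, hi'⟩ := h3 V W i hfin
  -- the map on polynomials
  set φ : C[X] →+* MvPolynomial (Fin l) (VV W) :=
    (MvPolynomial.map (algebraMap W[X] (VV W))).comp
      ((G.phi (Fin l) W).comp (Polynomial.mapRingHom r)) with hφ
  have hrj : r.comp j = (MvPolynomial.C : W →+* MvPolynomial (Fin l) W).comp i := by
    ext1 v
    exact hr v
  have hφj : ∀ f : V[X], φ (f.map j) = MvPolynomial.C (algebraMap W[X] (VV W) (f.map i)) := by
    intro f
    rw [hφ, RingHom.comp_apply, RingHom.comp_apply, Polynomial.coe_mapRingHom,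
      Polynomial.map_map, hrj, ← Polynomial.map_map, G.phi_map, MvPolynomial.map_C]
  have hφu : ∀ f ∈ S2 V, IsUnit (φ (f.map j)) := by
    intro f hf
    rw [hφj, ← hi']
    exact ((IsLocalization.map_units (VV V) (⟨f, hf⟩ : S2 V)).map i').map MvPolynomial.C
  obtain ⟨r', hr'⟩ := h4 V C Ω j ι hL (MvPolynomial (Fin l) (VV W)) φ hφu
  have hinjA : Function.Injective (algebraMap W[X] (VV W)) := (locRel_base W).inj
  have hinjG : Function.Injective (G.phi (Fin l) W) := by
    apply Function.LeftInverse.injective (g := G.psi (Fin l) W)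
    intro x
    exact RingHom.congr_fun (G.psi_phi (Fin l) W) x
  have hsurjG : Function.Surjective (G.phi (Fin l) W) := by
    intro x
    exact ⟨G.psi (Fin l) W x, RingHom.congr_fun (G.phi_psi (Fin l) W) x⟩
  have hφC : ∀ c : C, φ (Polynomial.C c) = 0 ↔ u ∣ c := by
    intro c
    rw [← hker]
    constructor
    · intro h
      rw [hφ, RingHom.comp_apply, RingHom.comp_apply] at h
      have h5 := (map_eq_zero_iff _ (MvPolynomial.map_injective _ hinjA)).1 h
      have h6 := (map_eq_zero_iff _ hinjG).1 h5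
      rw [Polynomial.coe_mapRingHom, Polynomial.map_C, Polynomial.C_eq_zero] at h6
      exact h6
    · intro h
      rw [hφ, RingHom.comp_apply, RingHom.comp_apply, Polynomial.coe_mapRingHom,
        Polynomial.map_C, h, Polynomial.C_0, map_zero, map_zero]
  refine ⟨?_, VV W, inferInstance, VV.dom W, VV.pid W, i', l, r', h1 W hE, hi'fin, ?_, ?_, ?_⟩
  · intro h
    apply hu0
    have h5 : ι (Polynomial.C u) = ι 0 := by rw [h, map_zero]
    have h6 := hL.inj h5
    exact Polynomial.C_eq_zero.1 h6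
  · intro p
    obtain ⟨s, hs, q, hq⟩ := denom W l p
    obtain ⟨g, hg, t, ht⟩ := h2 V W i hfin s hs
    obtain ⟨y, hy⟩ := hsurjG (MvPolynomial.C t * q)
    obtain ⟨c, hc⟩ := Polynomial.map_surjective r hsurj y
    have hφc : φ c = φ (g.map j) * p := by
      rw [hφj, ht, map_mul, MvPolynomial.C_mul, hφ, RingHom.comp_apply, RingHom.comp_apply,
        Polynomial.coe_mapRingHom, hc, hy, map_mul, MvPolynomial.map_C, ← hq]
      ring
    obtain ⟨w, hw⟩ := hL.unit g hg
    have hw2 : r' (ι (g.map j)) * r' ((w⁻¹ : Ωˣ) : Ω) = 1 := by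
      rw [← map_mul, ← hw, Units.mul_inv, map_one]
    refine ⟨((w⁻¹ : Ωˣ) : Ω) * ι c, ?_⟩
    rw [map_mul, hr', hφc, ← hr' (g.map j)]
    calc r' ((w⁻¹ : Ωˣ) : Ω) * (r' (ι (g.map j)) * p)
        = (r' (ι (g.map j)) * r' ((w⁻¹ : Ωˣ) : Ω)) * p := by ring
      _ = p := by rw [hw2, one_mul]
  · intro z
    constructor
    · intro hz
      obtain ⟨f, hf, c, hc⟩ := hL.frac z
      have h5 : φ c = 0 := by
        rw [← hr', ← hc, map_mul, hz, mul_zero]
      rw [hφ, RingHom.comp_apply, RingHom.comp_apply] at h5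
      have h6 := (map_eq_zero_iff _ (MvPolynomial.map_injective _ hinjA)).1 h5
      have h7 := (map_eq_zero_iff _ hinjG).1 h6
      rw [Polynomial.coe_mapRingHom] at h7
      have h8 : Polynomial.C u ∣ c := by
        rw [Polynomial.C_dvd_iff_dvd_coeff]
        intro k
        rw [← hker, ← Polynomial.coeff_map, h7, Polynomial.coeff_zero]
      obtain ⟨d, hd⟩ := h8
      have h9 : ι (Polynomial.C u) ∣ ι (f.map j) * z := by
        rw [hc, hd, map_mul]
        exact Dvd.intro _ rfl
      exact ((hL.unit f hf).dvd_mul_left).1 h9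
    · rintro ⟨d, rfl⟩
      rw [map_mul, hr', (hφC u).2 dvd_rfl, zero_mul]
  · intro v
    have h5 : r'.comp j' = (MvPolynomial.C : VV W →+* MvPolynomial (Fin l) (VV W)).comp i' := by
      apply IsLocalization.ringHom_ext (S2 V)
      apply RingHom.ext
      intro f
      show r' (j' (algebraMap V[X] (VV V) f)) = MvPolynomial.C (i' (algebraMap V[X] (VV V) f))
      rw [hj', hr', hφj, hi']
    exact RingHom.congr_fun h5 v

end Pool.Agent.W212.BQN
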